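import Pool.Agent.Helper13.RS.St

/-! RS module CL: numbers of one class modulo a large prime which avoid the small classes. -/

set_option autoImplicit false

namespace Pool.Agent.Helper28.RS

open Pool.Agent.Helper13.RS Finset
open Pool.Agent.Helper13.JC (Sw upper crt prod_Sw)

theorem hCL : StCL := by
  classical
  obtain ⟨B, hB⟩ := upper
  obtain ⟨C, hC, hS⟩ := prod_Sw
  refine ⟨6 * C * ((B : ℝ) + 2), by positivity, ?_⟩
  intro w a y p r hp hwp hpy hyw F hF
  have hp0 : 0 < p := hp.pos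
  have hpr : (0 : ℝ) < p := by exact_mod_cast hp0
  set q : ℝ := (y : ℝ) / p with hq
  have hq2 : 2 ≤ q := by
    rw [hq, le_div_iff₀ hpr]
    exact_mod_cast hpy
  set N : ℕ := y / p + 1 with hN
  have hNle : (N : ℝ) ≤ q + 1 := by
    rw [hN]
    push_cast
    have : ((y / p : ℕ) : ℝ) ≤ (y : ℝ) / p := Nat.cast_div_le
    linarith
  have hNge : q ≤ (N : ℝ) := by
    rw [hq, div_le_iff₀ hpr]
    have h1 : y < p * (y / p + 1) := Nat.lt_mul_div_succ y hp0
    have h2 : y ≤ N * p := by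
      rw [hN, mul_comm]
      exact h1.le
    exact_mod_cast h2
  have hN1 : (1 : ℝ) ≤ N := by linarith
  have hN0 : (0 : ℝ) ≤ N := by linarith
  set e : ℝ := 1 / ((B : ℝ) + 2) with he
  have hB2 : (0 : ℝ) < (B : ℝ) + 2 := by positivity
  have he0 : 0 < e := by positivity
  set ρ : ℝ := (N : ℝ) ^ e with hρ
  have hρ1 : 1 ≤ ρ := Real.one_le_rpow hN1 he0.le
  have hρN : ρ ^ (B + 2) = N := by
    rw [hρ, ← Real.rpow_natCast, ← Real.rpow_mul hN0]
    have : e * ((B + 2 : ℕ) : ℝ) = 1 := by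
      rw [he]
      push_cast
      field_simp
    rw [this, Real.rpow_one]
  set w₁ : ℕ := ⌊ρ⌋₊ with hw₁
  have hw1 : 1 ≤ w₁ := Nat.one_le_floor_iff _ |>.2 hρ1
  have hwρ : (w₁ : ℝ) ≤ ρ := Nat.floor_le (by linarith)
  have hwN : w₁ ^ B ≤ N := by
    have h1 : (w₁ : ℝ) ^ B ≤ ρ ^ (B + 2) :=
      (pow_le_pow_left₀ (Nat.cast_nonneg _) hwρ B).trans (pow_le_pow_right₀ hρ1 (by omega))
    rw [hρN] at h1
    exact_mod_cast h1
  have hwq : (w₁ : ℝ) ≤ q := by
    have h1 : (w₁ : ℝ) ^ 2 ≤ ρ ^ (B + 2) :=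
      (pow_le_pow_left₀ (Nat.cast_nonneg _) hwρ 2).trans (pow_le_pow_right₀ hρ1 (by omega))
    rw [hρN] at h1
    have h2 : (w₁ : ℝ) ^ 2 ≤ q ^ 2 := by nlinarith
    exact abs_le_of_sq_le_sq' h2 (by linarith) |>.2
  have hww : (w₁ : ℝ) ≤ w := hwq.trans hyw
  have hwp1 : w₁ < p := by
    have : (w₁ : ℝ) < p := lt_of_le_of_lt hww hwp
    exact_mod_cast this
  have hsp : ∀ s : ℕ, s.Prime → s ≤ w₁ → ¬ s ∣ p := by
    intro s hs hs1 hd
    rcases (Nat.dvd_prime hp).1 hd with h1 | h1
    · exact hs.one_lt.ne' h1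
    · omega
  have hSw : ∀ s ∈ Sw w₁, s.Prime ∧ 5 ≤ s ∧ s ≤ w₁ := by
    intro s hs
    unfold Sw at hs
    rw [Finset.mem_filter, Finset.mem_Icc] at hs
    exact ⟨hs.2, hs.1.1, hs.1.2⟩
  obtain ⟨h0, hh0⟩ := crt p (r : ℤ) a (Sw w₁) fun s hs =>
    ⟨(hSw s hs).1, hsp s (hSw s hs).1 (hSw s hs).2.2⟩
  have hup := hB w₁ hw1 N p hwN hsp (-(h0 * p)) (fun _ => 1) ∅ (fun s hs => absurd hs (by simp))
  have hcard : F.card ≤ ((range N).filter fun h : ℕ => ∀ s ∈ Sw w₁, ¬ ((s : ℤ) ∣ -(h0 * p) + h * p ∨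
      (s ∈ (∅ : Finset ℕ) ∧ (s : ℤ) ∣ -(h0 * p) + h * p - 1))).card := by
    refine Finset.card_le_card_of_injOn (fun n => n / p) ?_ ?_
    · intro n hn
      have hn := hF n hn
      simp only [Finset.coe_filter, Finset.mem_range, Set.mem_ofPred_eq]
      refine ⟨?_, ?_⟩
      · have : n / p ≤ y / p := Nat.div_le_div_right hn.1
        omega
      · intro s hs hcon
        rcases hcon with hcon | hcon
        · refine hn.2.2 s (hSw s hs).1 ?_ ?_
          · have : (s : ℝ) ≤ w₁ := by exact_mod_cast (hSw s hs).2.2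
            exact this.trans hww
          · have h1 : (n : ℤ) = r + ((n / p : ℕ) : ℤ) * p := by
              have h2 := Nat.mod_add_div n p
              rw [hn.2.1] at h2
              have h3 : ((r + p * (n / p) : ℕ) : ℤ) = (n : ℤ) := by exact_mod_cast h2
              push_cast at h3 ⊢
              linarith
            have h4 : (s : ℤ) ∣ (n : ℤ) - a s := by
              have h5 := dvd_add (hh0 s hs) hcon
              have h6 : (r : ℤ) + h0 * p - a s + (-(h0 * p) + ((n / p : ℕ) : ℤ) * p) = n - a s := by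
                rw [h1]
                ring
              rw [h6] at h5
              exact h5
            exact (Int.modEq_iff_dvd.2 (by
              have := dvd_neg.2 h4
              simpa using this))
        · exact absurd hcon.1 (by simp)
    · intro n hn m hm hnm
      have hn := hF n hn
      have hm := hF m hm
      have h1 := Nat.mod_add_div n p
      have h2 := Nat.mod_add_div m p
      have h3 : n / p = m / p := hnm
      rw [hn.2.1, h3] at h1
      rw [hm.2.1] at h2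
      omega
  have hfin : (F.card : ℝ) ≤ 3 * N * (C / Real.log ((w₁ : ℝ) + 1)) := by
    have h1 : (F.card : ℝ) ≤ _ := (Nat.cast_le.2 hcard).trans hup
    refine h1.trans ?_
    have h2 : ∏ s ∈ (Sw w₁).filter (· ∈ (∅ : Finset ℕ)), (1 - 1 / (s : ℝ)) = 1 := by
      have : (Sw w₁).filter (· ∈ (∅ : Finset ℕ)) = ∅ := by
        ext s
        simp
      rw [this, Finset.prod_empty]
    rw [h2, mul_one]
    exact mul_le_mul_of_nonneg_left (hS w₁ hw1) (by positivity)
  have hlq : 0 < Real.log q := Real.log_pos (by linarith)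
  have hlog : e * Real.log q ≤ Real.log ((w₁ : ℝ) + 1) := by
    have h1 : ρ ≤ (w₁ : ℝ) + 1 := (Nat.lt_floor_add_one ρ).le
    have h2 : Real.log ρ ≤ Real.log ((w₁ : ℝ) + 1) := Real.log_le_log (by linarith) h1
    have h3 : Real.log ρ = e * Real.log N := by
      rw [hρ, Real.log_rpow (by linarith)]
    have h4 : Real.log q ≤ Real.log N := Real.log_le_log (by linarith) hNge
    nlinarith
  have hel : 0 < e * Real.log q := mul_pos he0 hlq
  have hCl : C / Real.log ((w₁ : ℝ) + 1) ≤ C / (e * Real.log q) :=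
    div_le_div_of_nonneg_left hC.le hel hlog
  have hCe : C / (e * Real.log q) = C * ((B : ℝ) + 2) / Real.log q := by
    rw [he]
    field_simp
  rw [hCe] at hCl
  have hD0 : 0 ≤ C * ((B : ℝ) + 2) / Real.log q := by positivity
  calc (F.card : ℝ) ≤ 3 * N * (C / Real.log ((w₁ : ℝ) + 1)) := hfin
    _ ≤ 3 * N * (C * ((B : ℝ) + 2) / Real.log q) :=
        mul_le_mul_of_nonneg_left hCl (by positivity)
    _ ≤ 3 * (2 * q) * (C * ((B : ℝ) + 2) / Real.log q) := by
        refine mul_le_mul_of_nonneg_right ?_ hD0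
        linarith
    _ = 6 * C * ((B : ℝ) + 2) * q / Real.log q := by ring

end Pool.Agent.Helper28.RS
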